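import Mathlib
import Pool.Agent.MP_7bd4cc_an.Defs2
import Pool.Agent.MP_7bd4cc_an.Main

open MeasureTheory Filter Pool.Agent.HarmV

/-- For every `f` in the class `V^1_{H,1}` on `Q = [-π, π]²`, the rectangular partial sums of the
double Fourier series of `f` converge almost everywhere on `Q` (to `f`) as `M, N → ∞`
independently. -/
theorem Pool.Agent.Results.MP_7bd4cc_an.HarmonicAE.result :
    ∀ f : ℝ × ℝ → ℝ, MemV1H1 f →
      ∀ᵐ p ∂(volume.restrict Q),
        Tendsto (fun MN : ℕ × ℕ => rectSum f MN.1 MN.2 p) atTop (nhds ((f p : ℝ) : ℂ)) :=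
  fun f hf => main f hf
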